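import Pool.Agent.Helper91.PL.Defs2

/-!
# MP_bae8ce_ag : module E3, functionals and forms
-/

set_option autoImplicit false

open Finset
open scoped TensorProduct

namespace PL

noncomputable section

universe u

section E3aux

variable {U : Type*} {W : Type*} [AddCommGroup U] [Module ℚ U] [AddCommGroup W] [Module ℚ W]

/-- Evaluation of alternating maps. -/
def e3_ev {j : ℕ} (v : Fin j → U) : (U [⋀^Fin j]→ₗ[ℚ] ℚ) →ₗ[ℚ] ℚ where
  toFun A := A v
  map_add' _ _ := rfl
  map_smul' _ _ := rfl

@[simp] theorem e3_ev_apply {j : ℕ} (v : Fin j → U) (A : U [⋀^Fin j]→ₗ[ℚ] ℚ) :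
    e3_ev v A = A v := rfl

/-- The polarised relation for a scalar form vanishing on the diagonal. -/
theorem e3_polar_sum {n : ℕ} (M : MultilinearMap ℚ (fun _ : Fin n => U) ℚ)
    (hd : ∀ x, M (fun _ => x) = 0) (x y : U) :
    ∑ i, M (Function.update (fun _ => y) i x) = 0 := by
  classical
  let P : Polynomial ℚ := ∑ s : Finset (Fin n),
    Polynomial.C (M (s.piecewise (fun _ => x) (fun _ => y))) * Polynomial.X ^ s.card
  have hP : P = 0 := by
    refine Polynomial.funext fun t => ?_
    have h1 := hd (t • x + y)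
    have h2 : (fun _ : Fin n => t • x + y) = (fun _ => t • x) + (fun _ => y) := rfl
    rw [h2, MultilinearMap.map_add_univ] at h1
    simp only [Polynomial.eval_zero]
    rw [← h1]
    simp only [P, Polynomial.eval_finsetSum, Polynomial.eval_mul, Polynomial.eval_C,
      Polynomial.eval_pow, Polynomial.eval_X]
    refine Finset.sum_congr rfl fun s _ => ?_
    have h3 := M.map_piecewise_smul (fun _ : Fin n => t) (s.piecewise (fun _ => x) (fun _ => y)) s
    simp only [Finset.prod_const, smul_eq_mul] at h3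
    have h4 : (s.piecewise (fun i => t • (s.piecewise (fun _ => x) (fun _ => y) : Fin n → U) i)
        (s.piecewise (fun _ => x) (fun _ => y)) : Fin n → U) =
        s.piecewise (fun _ => t • x) (fun _ => y) := by
      ext i
      by_cases hi : i ∈ s <;> simp [hi]
    rw [h4] at h3
    rw [h3, mul_comm]
  have h1 : P.coeff 1 = 0 := by rw [hP]; simp
  simp only [P, Polynomial.finsetSum_coeff, Polynomial.coeff_C_mul, Polynomial.coeff_X_pow,
    mul_ite, mul_one, mul_zero] at h1
  rw [← Finset.sum_filter] at h1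
  rw [← h1]
  refine Finset.sum_bij (fun i _ => {i}) ?_ ?_ ?_ ?_
  · intro i _
    simp
  · intro i _ i' _ h
    simpa using h
  · intro s hs
    simp only [Finset.mem_filter, Finset.mem_univ, true_and] at hs
    obtain ⟨i, rfl⟩ := Finset.card_eq_one.1 hs.symm
    exact ⟨i, Finset.mem_univ _, rfl⟩
  · intro i _
    congr 1
    ext l
    by_cases hl : l = i
    · subst hl; simp
    · simp [hl]

/-- The polarised relation for admissible scalar forms. -/
theorem e3_polar {q : ℕ} (M : MultilinearMap ℚ (fun _ : Fin (q + 2) => U) ℚ)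
    (hM : Adm M) (x y : U) :
    M (Fin.cons x fun _ => y) +
      (q + 1 : ℚ) * M (Fin.cons y (Fin.cons x fun _ => y)) = 0 := by
  have h := e3_polar_sum M hM.diag x y
  rw [Fin.sum_univ_succ] at h
  have h0 : Function.update (fun _ : Fin (q + 2) => y) 0 x = Fin.cons x fun _ => y := by
    ext i
    refine Fin.cases ?_ (fun i => ?_) i
    · simp
    · simp
  have h1 : ∀ i : Fin (q + 1), M (Function.update (fun _ => y) i.succ x) =
      M (Fin.cons y (Fin.cons x fun _ => y)) := by
    intro i
    have h2 := hM.symm (Equiv.swap 1 i.succ) (by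
      rw [Equiv.swap_apply_of_ne_of_ne]
      · exact (Fin.succ_ne_zero (0 : Fin (q + 1))).symm
      · exact (Fin.succ_ne_zero i).symm) (Fin.cons y (Fin.cons x fun _ => y))
    rw [← h2]
    congr 1
    ext l
    simp only [Function.comp]
    by_cases hl : l = i.succ
    · subst hl
      simp only [Function.update_self, Equiv.swap_apply_right]
      rfl
    · rw [Function.update_of_ne hl]
      by_cases hl1 : l = 1
      · subst hl1
        rw [Equiv.swap_apply_left]
        refine Eq.symm ?_
        rw [Fin.cons_succ]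
        have : i ≠ 0 := fun h => hl (by rw [h]; rfl)
        obtain ⟨i', rfl⟩ := Fin.exists_succ_eq.2 this
        simp
      · rw [Equiv.swap_apply_of_ne_of_ne hl1 hl]
        refine Eq.symm ?_
        refine Fin.cases ?_ (fun l => ?_) l hl1
        · intro _; rfl
        · intro hl1
          rw [Fin.cons_succ]
          have : l ≠ 0 := fun h => hl1 (by rw [h]; rfl)
          obtain ⟨l', rfl⟩ := Fin.exists_succ_eq.2 this
          simp
  rw [h0, Finset.sum_congr rfl fun i _ => h1 i] at h
  simpa using h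

/-- Evaluations of admissible forms are admissible. -/
theorem e3_adm_ev {q j : ℕ} {M : MultilinearMap ℚ (fun _ : Fin (q + 2) => U)
    (U [⋀^Fin j]→ₗ[ℚ] ℚ)} (hM : Adm M) (v : Fin j → U) :
    Adm ((e3_ev v).compMultilinearMap M) where
  symm σ hσ x := by
    simp only [LinearMap.compMultilinearMap_apply, hM.symm σ hσ x]
  diag x := by
    simp only [LinearMap.compMultilinearMap_apply, hM.diag x, map_zero]

end E3aux

variable {F : Type u} [Field F]

theorem e3_mem_NN {q : ℕ} {α : ZP F} (h : α ∈ NN q F)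
    (φ : MultilinearMap ℚ (fun _ : Fin (q + 2) => V F) ℚ) :
    Finsupp.linearCombination ℚ (Sy φ) α = 0 := by
  unfold NN at h
  rw [Submodule.mem_iInf] at h
  exact h φ

theorem functional_of_form (q j : ℕ) (hR : R (q + 2) F = NN q F)
    (M : MultilinearMap ℚ (fun _ : Fin (q + 2) => V F) (V F [⋀^Fin j]→ₗ[ℚ] ℚ)) (hM : Adm M) :
    ∃ l : TensorProduct ℚ (B (q + 2) F) (⋀[ℚ]^j (V F)) →ₗ[ℚ] ℚ,
      ∀ (x : P1 F) (v : Fin j → V F), l (sym (q + 2) x ⊗ₜ exteriorPower.ιMulti ℚ j v) =
        M (Fin.cons (cl1 x) fun _ => cl x) v := by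
  let Z : ZP F →ₗ[ℚ] (⋀[ℚ]^j (V F)) →ₗ[ℚ] ℚ := Finsupp.linearCombination ℚ
    (fun x => exteriorPower.alternatingMapLinearEquiv (M (Fin.cons (cl1 x) fun _ => cl x)))
  have hZ : R (q + 2) F ≤ LinearMap.ker Z := by
    intro α hα
    rw [hR] at hα
    rw [LinearMap.mem_ker]
    refine exteriorPower.linearMap_ext ?_
    ext v
    simp only [LinearMap.compAlternatingMap_apply, LinearMap.zero_apply, Z]
    have h1 := e3_mem_NN hα (((q + 1 : ℚ) / (q + 2)) • (e3_ev v).compMultilinearMap M)
    rw [Finsupp.linearCombination_apply, Finsupp.sum] at h1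
    rw [Finsupp.linearCombination_apply, Finsupp.sum, LinearMap.sum_apply]
    rw [← h1]
    refine Finset.sum_congr rfl fun x _ => ?_
    rw [LinearMap.smul_apply, exteriorPower.alternatingMapLinearEquiv_apply_ιMulti]
    congr 1
    have h2 := e3_polar _ (e3_adm_ev hM v) (cl1 x) (cl x)
    simp only [LinearMap.compMultilinearMap_apply, e3_ev_apply] at h2
    simp only [Sy, smul_apply, LinearMap.compMultilinearMap_apply, e3_ev_apply,
      smul_eq_mul]
    have hq : (q + 1 : ℚ) ≠ 0 := by positivity
    have hq' : (q + 2 : ℚ) ≠ 0 := by positivity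
    field_simp
    linear_combination h2
  refine ⟨TensorProduct.lift ((R (q + 2) F).liftQ Z hZ), fun x v => ?_⟩
  rw [TensorProduct.lift.tmul]
  simp only [sym, Submodule.mkQ_apply, Submodule.liftQ_apply, Z,
    Finsupp.linearCombination_single, one_smul]
  rw [exteriorPower.alternatingMapLinearEquiv_apply_ιMulti]

/-- The total symbol with values in the tensor power. -/
def e3_S (q : ℕ) (F : Type u) [Field F] :
    ZP F →ₗ[ℚ] PiTensorProduct ℚ (fun _ : Fin (q + 2) => V F) :=
  Finsupp.linearCombination ℚ fun x =>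
    PiTensorProduct.tprod ℚ (Fin.cons (cl1 x) fun _ => cl x) -
      PiTensorProduct.tprod ℚ (Fin.cons (cl x) (Fin.cons (cl1 x) fun _ => cl x))

theorem e3_ker_S (q : ℕ) : LinearMap.ker (e3_S q F) = NN q F := by
  have key : ∀ φ : MultilinearMap ℚ (fun _ : Fin (q + 2) => V F) ℚ,
      PiTensorProduct.lift φ ∘ₗ e3_S q F = Finsupp.linearCombination ℚ (Sy φ) := by
    intro φ
    ext x
    simp [e3_S, Sy]
  apply le_antisymm
  · intro α hα
    rw [LinearMap.mem_ker] at hα
    unfold NN
    rw [Submodule.mem_iInf]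
    intro φ
    rw [LinearMap.mem_ker, ← key φ, LinearMap.comp_apply, hα, map_zero]
  · intro α hα
    rw [LinearMap.mem_ker, ← Module.forall_dual_apply_eq_zero_iff ℚ]
    intro lam
    have h1 := e3_mem_NN hα (lam.compMultilinearMap (PiTensorProduct.tprod ℚ))
    rw [← key, LinearMap.comp_apply] at h1
    have h2 : PiTensorProduct.lift (lam.compMultilinearMap (PiTensorProduct.tprod ℚ)) = lam := by
      refine PiTensorProduct.ext ?_
      refine MultilinearMap.ext fun x => ?_
      simp
    rwa [h2] at h1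

/-- Symmetrisation in the variables except the first. -/
theorem e3_symmetrise {U W : Type*} [AddCommGroup U] [Module ℚ U] [AddCommGroup W] [Module ℚ W]
    {q : ℕ} (L : MultilinearMap ℚ (fun _ : Fin (q + 2) => U) W) :
    ∃ M : MultilinearMap ℚ (fun _ : Fin (q + 2) => U) W, Adm M ∧ ∀ a b : U,
      M (Fin.cons a fun _ => b) = L (Fin.cons a fun _ => b) -
        L (Fin.cons b (Fin.cons a fun _ => b)) := by
  classical
  let G : Finset (Equiv.Perm (Fin (q + 2))) := univ.filter fun σ => σ 0 = 0
  have hG : (G.card : ℚ) ≠ 0 := by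
    rw [Nat.cast_ne_zero]
    refine Finset.card_ne_zero_of_mem (a := 1) ?_
    simp [G]
  let M : MultilinearMap ℚ (fun _ : Fin (q + 2) => U) W :=
    (G.card : ℚ)⁻¹ • ∑ σ ∈ G, (L.domDomCongr σ - L.domDomCongr ((Equiv.swap 0 1).trans σ))
  have hM : ∀ x, M x = (G.card : ℚ)⁻¹ • ∑ σ ∈ G,
      (L (fun i => x (σ i)) - L (fun i => x (σ (Equiv.swap 0 1 i)))) := by
    intro x
    simp only [M, smul_apply, _root_.sum_apply, sub_apply,
      MultilinearMap.domDomCongr_apply, Equiv.trans_apply]
  refine ⟨M, ⟨?_, ?_⟩, ?_⟩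
  · intro τ hτ x
    rw [hM, hM]
    congr 1
    refine Finset.sum_equiv (Equiv.mulLeft τ) ?_ ?_
    · intro σ
      simp only [G, Finset.mem_filter, Finset.mem_univ, true_and, Equiv.coe_mulLeft,
        Equiv.Perm.coe_mul, Function.comp]
      constructor
      · intro h
        rw [h, hτ]
      · intro h
        exact τ.injective (h.trans hτ.symm)
    · intro σ _
      rfl
  · intro x
    rw [hM]
    simp
  · intro a b
    rw [hM]
    have h1 : ∀ σ ∈ G, (L (fun i => (Fin.cons a fun _ => b : Fin (q + 2) → U) (σ i)) -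
        L (fun i => (Fin.cons a fun _ => b : Fin (q + 2) → U) (σ (Equiv.swap 0 1 i)))) =
        L (Fin.cons a fun _ => b) - L (Fin.cons b (Fin.cons a fun _ => b)) := by
      intro σ hσ
      have hσ0 : σ 0 = 0 := by simpa [G] using hσ
      have hval : ∀ l : Fin (q + 2), (Fin.cons a fun _ => b : Fin (q + 2) → U) l =
          if l = 0 then a else b := by
        intro l
        refine Fin.cases ?_ (fun l => ?_) l
        · simp
        · simp
      congr 2
      · ext i
        rw [hval, hval]
        have : σ i = 0 ↔ i = 0 := by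
          constructor
          · intro h
            exact σ.injective (by rw [h, hσ0])
          · intro h
            rw [h, hσ0]
        simp [this]
      · ext i
        rw [hval]
        have h2 : σ (Equiv.swap 0 1 i) = 0 ↔ i = 1 := by
          constructor
          · intro h
            have h3 : Equiv.swap (0 : Fin (q + 2)) 1 i = 0 :=
              σ.injective (by rw [h, hσ0])
            have h4 := congrArg (Equiv.swap (0 : Fin (q + 2)) 1) h3
            rw [Equiv.swap_apply_self, Equiv.swap_apply_left] at h4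
            exact h4
          · intro h
            rw [h, Equiv.swap_apply_right, hσ0]
        simp only [h2]
        refine Fin.cases ?_ (fun l => ?_) i
        · simp
        · rw [Fin.cons_succ]
          refine Fin.cases ?_ (fun l => ?_) l
          · simp
          · simp [Fin.ext_iff]
    rw [Finset.sum_congr rfl h1, Finset.sum_const, ← Nat.cast_smul_eq_nsmul ℚ, smul_smul,
      inv_mul_cancel₀ hG, one_smul]

theorem form_of_functional (q j : ℕ) (hR : R (q + 2) F = NN q F)
    (l : TensorProduct ℚ (B (q + 2) F) (⋀[ℚ]^j (V F)) →ₗ[ℚ] ℚ) :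
    ∃ M : MultilinearMap ℚ (fun _ : Fin (q + 2) => V F) (V F [⋀^Fin j]→ₗ[ℚ] ℚ), Adm M ∧
      ∀ (x : P1 F) (v : Fin j → V F), l (sym (q + 2) x ⊗ₜ exteriorPower.ιMulti ℚ j v) =
        M (Fin.cons (cl1 x) fun _ => cl x) v := by
  have hle : R (q + 2) F ≤ LinearMap.ker (e3_S q F) := by rw [e3_ker_S, hR]
  let S' : B (q + 2) F →ₗ[ℚ] PiTensorProduct ℚ (fun _ : Fin (q + 2) => V F) :=
    (R (q + 2) F).liftQ (e3_S q F) hle
  have hS' : LinearMap.ker S' = ⊥ := by
    refine Submodule.ker_liftQ_eq_bot _ _ hle ?_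
    rw [e3_ker_S, hR]
  obtain ⟨g, hg⟩ := LinearMap.exists_leftInverse_of_injective S' hS'
  let L : MultilinearMap ℚ (fun _ : Fin (q + 2) => V F) (V F [⋀^Fin j]→ₗ[ℚ] ℚ) :=
    ((exteriorPower.alternatingMapLinearEquiv (R := ℚ) (M := V F) (N := ℚ)
      (n := j)).symm.toLinearMap ∘ₗ TensorProduct.curry l ∘ₗ g).compMultilinearMap
        (PiTensorProduct.tprod ℚ)
  have hL : ∀ x v, L x v = l (g (PiTensorProduct.tprod ℚ x) ⊗ₜ exteriorPower.ιMulti ℚ j v) := by
    intro x v
    simp only [L, LinearMap.compMultilinearMap_apply, LinearMap.comp_apply,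
      LinearEquiv.coe_coe, exteriorPower.alternatingMapLinearEquiv_symm_apply]
    rfl
  obtain ⟨M, hM, hM'⟩ := e3_symmetrise L
  refine ⟨M, hM, fun x v => ?_⟩
  rw [hM', AlternatingMap.sub_apply, hL, hL, ← map_sub, ← TensorProduct.sub_tmul, ← map_sub]
  congr 2
  have h1 : S' (sym (q + 2) x) = PiTensorProduct.tprod ℚ (Fin.cons (cl1 x) fun _ => cl x) -
      PiTensorProduct.tprod ℚ (Fin.cons (cl x) (Fin.cons (cl1 x) fun _ => cl x)) := by
    simp only [S', sym, Submodule.mkQ_apply, Submodule.liftQ_apply, e3_S,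
      Finsupp.linearCombination_single, one_smul]
  rw [← h1]
  exact (LinearMap.congr_fun hg (sym (q + 2) x)).symm

end

end PL
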