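import Pool.Agent.Helper93.PL.St

/-!
# Project PL, module Fin: the limit of the laws, the theorem for vectors
-/

set_option autoImplicit false

namespace Pool.Agent.Helper58.PL

open Finset
open Pool.Agent.Helper61.PV
open Pool.Agent.Helper93.PL

/-- If `d ≤ H^(1/(2n))` then `(log H + d)^n ≤ H` for large `H`. -/
private theorem pwc (n : ℕ) (hn : 1 ≤ n) : ∃ H₀ : ℕ, ∀ H : ℕ, H₀ ≤ H → ∀ d : ℕ,
    (d : ℝ) ≤ (H : ℝ) ^ (1 / (2 * (n : ℝ))) → (Real.log H + d) ^ n ≤ H := by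
  have hn0 : (0 : ℝ) < n := by exact_mod_cast hn
  have hc : (0 : ℝ) < 1 / (2 * (n : ℝ)) := by positivity
  have h1 : ∀ᶠ t : ℝ in Filter.atTop, Real.log t ≤ t ^ (1 / (2 * (n : ℝ))) := by
    have h := (isLittleO_log_rpow_atTop hc).bound (show (0 : ℝ) < 1 by norm_num)
    filter_upwards [h, Filter.eventually_ge_atTop (1 : ℝ)] with t ht ht1
    rw [one_mul, Real.norm_of_nonneg (Real.log_nonneg ht1),
      Real.norm_of_nonneg (Real.rpow_nonneg (by linarith) _)] at ht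
    exact ht
  have h2 : ∀ᶠ t : ℝ in Filter.atTop, (2 : ℝ) ^ n ≤ t ^ (1 / 2 : ℝ) :=
    (tendsto_rpow_atTop (show (0 : ℝ) < 1 / 2 by norm_num)).eventually_ge_atTop _
  have h3 : ∀ᶠ H : ℕ in Filter.atTop, Real.log (H : ℝ) ≤ (H : ℝ) ^ (1 / (2 * (n : ℝ))) ∧
      (2 : ℝ) ^ n ≤ (H : ℝ) ^ (1 / 2 : ℝ) ∧ 1 ≤ H :=
    ((tendsto_natCast_atTop_atTop.eventually h1).and
      ((tendsto_natCast_atTop_atTop.eventually h2).and (Filter.eventually_ge_atTop 1)))
  obtain ⟨H₀, hH₀⟩ := Filter.eventually_atTop.1 h3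
  refine ⟨H₀, fun H hH d hd => ?_⟩
  obtain ⟨a1, a2, a3⟩ := hH₀ H hH
  have a3' : (1 : ℝ) ≤ H := by exact_mod_cast a3
  have b0 : 0 ≤ Real.log (H : ℝ) + d := add_nonneg (Real.log_nonneg a3') (Nat.cast_nonneg d)
  have b1 : Real.log (H : ℝ) + d ≤ 2 * (H : ℝ) ^ (1 / (2 * (n : ℝ))) := by linarith
  have b2 : ((H : ℝ) ^ (1 / (2 * (n : ℝ)))) ^ n = (H : ℝ) ^ (1 / 2 : ℝ) := by
    rw [← Real.rpow_natCast, ← Real.rpow_mul (by linarith)]
    congr 1
    field_simp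
  calc (Real.log (H : ℝ) + d) ^ n ≤ (2 * (H : ℝ) ^ (1 / (2 * (n : ℝ)))) ^ n :=
        pow_le_pow_left₀ b0 b1 n
    _ = 2 ^ n * (H : ℝ) ^ (1 / 2 : ℝ) := by rw [mul_pow, b2]
    _ ≤ (H : ℝ) ^ (1 / 2 : ℝ) * (H : ℝ) ^ (1 / 2 : ℝ) :=
        mul_le_mul_of_nonneg_right a2 (Real.rpow_nonneg (by linarith) _)
    _ = H := by
        rw [← Real.rpow_add (by linarith)]
        norm_num

/-- For fixed `d` and large `H`. -/
private theorem pwd (n : ℕ) (hn : 1 ≤ n) (d : ℕ) : ∃ H₀ : ℕ, ∀ H : ℕ, H₀ ≤ H →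
    (Real.log H + d) ^ n ≤ H := by
  obtain ⟨H₁, h1⟩ := pwc n hn
  have hn0 : (0 : ℝ) < n := by exact_mod_cast hn
  have hc : (0 : ℝ) < 1 / (2 * (n : ℝ)) := by positivity
  have h2 : ∀ᶠ t : ℝ in Filter.atTop, (d : ℝ) ≤ t ^ (1 / (2 * (n : ℝ))) :=
    (tendsto_rpow_atTop hc).eventually_ge_atTop _
  obtain ⟨H₂, h3⟩ := Filter.eventually_atTop.1 (tendsto_natCast_atTop_atTop.eventually h2)
  exact ⟨max H₁ H₂, fun H hH => h1 H (le_trans (le_max_left _ _) hH) d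
    (h3 H (le_trans (le_max_right _ _) hH))⟩

/-- The box is not empty. -/
private theorem bxx_pos (d H : ℕ) (hH : 1 ≤ H) : (0 : ℝ) < #(Bxx d H) := by
  have h : 0 < #(Bxx d H) := by
    rw [Finset.card_pos]
    refine ⟨fun i => if (i : ℕ) < d then 0 else 1, ?_⟩
    unfold Bxx Bx
    rw [Fintype.mem_piFinset]
    intro i
    by_cases hi : (i : ℕ) < d
    · simp only [hi, if_true, Finset.mem_Ico]
      push_cast
      constructor <;> omega
    · simp only [hi, if_false, Finset.mem_Ico]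
      constructor
      · exact le_refl _
      · omega
  exact_mod_cast h

/-- The quotient is close to the law with the primes up to `w`. -/
private theorem quo (hFi1 : StFi1) (hLwb : StLwb) (hSta : StSta) (j : ℕ) (x : ℝ) (hx : 0 < x)
    (ε : ℝ) (hε : 0 < ε) : ∃ K w₀ : ℕ, ∀ w : ℕ, w₀ ≤ w → ∃ H₀ : ℕ, ∀ H : ℕ, H₀ ≤ H →
    ∀ d : ℕ, w + K ≤ d → (Real.log H + d) ^ (40 * (K + 1)) ≤ H →
    |(Nat.card {v : Fin (d + 1) → ℤ // v ∈ Bxx d H ∧ NFD v ∧ nP v 0 (x * Sz H d) = j} : ℝ) /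
      Nat.card {v : Fin (d + 1) → ℤ // v ∈ Bxx d H ∧ NFD v} - LawW w j x| ≤ 4 * ε := by
  obtain ⟨K, w₀, h1⟩ := hFi1 j ε x hε hx
  obtain ⟨H₁, h2⟩ := hSta
  refine ⟨K + 1, w₀, fun w hw => ?_⟩
  obtain ⟨H₂, h3⟩ := h1 w hw
  refine ⟨max (max H₁ H₂) 1, fun H hH d hd hp => ?_⟩
  have g1 : H₁ ≤ H := le_trans (le_trans (le_max_left _ _) (le_max_left _ _)) hH
  have g2 : H₂ ≤ H := le_trans (le_trans (le_max_right _ _) (le_max_left _ _)) hH
  have g3 : 1 ≤ H := le_trans (le_max_right _ _) hH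
  have hp' : (Real.log (H : ℝ) + d) ^ (40 * (K + 1)) ≤ H := by
    refine le_trans ?_ hp
    have g3' : (1 : ℝ) ≤ H := by exact_mod_cast g3
    have g4 : (1 : ℝ) ≤ (d : ℝ) := by
      have : 1 ≤ d := by omega
      exact_mod_cast this
    have g5 := Real.log_nonneg g3'
    exact pow_le_pow_right₀ (by linarith) (by omega)
  obtain ⟨e1, e2⟩ := h3 H g2 d (by omega) hp'
  have e3 := h2 H g1 d (by omega)
  obtain ⟨l1, l2, l3, l4⟩ := hLwb w j x hx.le
  have e4 := bxx_pos d H g3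
  set A : ℝ := (Nat.card {v : Fin (d + 1) → ℤ // v ∈ Bxx d H ∧ NFD v ∧
    nP v 0 (x * Sz H d) = j} : ℝ) with hA
  set D : ℝ := (Nat.card {v : Fin (d + 1) → ℤ // v ∈ Bxx d H ∧ NFD v} : ℝ) with hD
  set N : ℝ := (#(Bxx d H) : ℝ) with hN
  set L := LawW w j x with hL
  set P := Pst w with hP
  have hDp : 0 < D := by linarith
  have e5 : |A - L * D| ≤ 4 * ε * D := by
    have e6 : A - L * D = (A - P * L * N) - L * (D - P * N) := by ring
    have e7 : |L * (D - P * N)| ≤ ε * N := by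
      rw [abs_mul, abs_of_nonneg l1]
      calc L * |D - P * N| ≤ 1 * |D - P * N| :=
            mul_le_mul_of_nonneg_right l2 (abs_nonneg _)
        _ ≤ ε * N := by rw [one_mul]; exact e2
    calc |A - L * D| = |(A - P * L * N) - L * (D - P * N)| := by rw [e6]
      _ ≤ |A - P * L * N| + |L * (D - P * N)| := abs_sub _ _
      _ ≤ ε * N + ε * N := add_le_add e1 e7
      _ = 2 * ε * N := by ring
      _ ≤ 2 * ε * (2 * D) := mul_le_mul_of_nonneg_left e3 (by linarith)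
      _ = 4 * ε * D := by ring
  have e8 : A / D - L = (A - L * D) / D := by
    field_simp
  rw [e8, abs_div, abs_of_pos hDp, div_le_iff₀ hDp]
  exact e5

/-- FIN. -/
theorem hFin (hFi1 : StFi1) (hLwb : StLwb) (hSta : StSta) : Pool.Agent.Helper93.PL.StFin := by
  intro j x hx
  have hq := quo hFi1 hLwb hSta j x hx
  have hcau : CauchySeq (fun w => LawW w j x) := by
    rw [Metric.cauchySeq_iff']
    intro ε hε
    obtain ⟨K, w₀, h1⟩ := hq (ε / 16) (by linarith)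
    refine ⟨w₀, fun w hw => ?_⟩
    obtain ⟨Ha, ha⟩ := h1 w hw
    obtain ⟨Hb, hb⟩ := h1 w₀ le_rfl
    obtain ⟨Hc, hc⟩ := pwd (40 * (K + 1)) (by omega) (w + K)
    have a := ha (max (max Ha Hb) Hc) (le_trans (le_max_left _ _) (le_max_left _ _)) (w + K) le_rfl
      (hc _ (le_max_right _ _))
    have b := hb (max (max Ha Hb) Hc) (le_trans (le_max_right _ _) (le_max_left _ _)) (w + K)
      (by omega) (hc _ (le_max_right _ _))
    rw [Real.dist_eq]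
    have a' := abs_le.1 a
    have b' := abs_le.1 b
    refine lt_of_le_of_lt (abs_le.2 (?_ : -(ε / 2) ≤ _ ∧ _ ≤ ε / 2)) (by linarith)
    constructor <;> linarith [a'.1, a'.2, b'.1, b'.2]
  obtain ⟨L, hL⟩ := cauchySeq_tendsto_of_complete hcau
  refine ⟨L, hL, fun ε hε => ?_⟩
  obtain ⟨K, w₀, h1⟩ := hq (ε / 8) (by linarith)
  obtain ⟨w₁, hw₁⟩ := Metric.tendsto_atTop.1 hL (ε / 2) (by linarith)
  obtain ⟨Ha, ha⟩ := h1 (max w₀ w₁) (le_max_left _ _)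
  obtain ⟨Hb, hb⟩ := pwc (40 * (K + 1)) (by omega)
  have hn0 : (0 : ℝ) < ((40 * (K + 1) : ℕ) : ℝ) := by positivity
  refine ⟨1 / (2 * ((40 * (K + 1) : ℕ) : ℝ)), max w₀ w₁ + K, max Ha Hb, by positivity, ?_⟩
  intro d H hd hH hdH
  have a := ha H (le_trans (le_max_left _ _) hH) d hd
    (hb H (le_trans (le_max_right _ _) hH) d hdH)
  have b := hw₁ (max w₀ w₁) (le_max_right _ _)
  rw [Real.dist_eq] at b
  have a' := abs_le.1 a
  have b' := abs_lt.1 b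
  rw [abs_le]
  constructor <;> linarith [a'.1, a'.2, b'.1, b'.2]

end Pool.Agent.Helper58.PL
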