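import Pool.Agent.Helper91.PL.E1
import Pool.Agent.Helper91.PL.E2
import Pool.Agent.Helper91.PL.E3
import Pool.Agent.Helper91.PL.P3
import Pool.Agent.Helper91.PL.X1

/-!
# MP_bae8ce_ag : module X2, exactness of the complexes of the function field
-/

set_option autoImplicit false

open Finset
open scoped TensorProduct

namespace PL

noncomputable section

section X2lin

variable {U : Type} [AddCommGroup U] [Module ℚ U]

/-- Evaluation of alternating maps. -/
def x2_ev {j : ℕ} (v : Fin j → U) : (U [⋀^Fin j]→ₗ[ℚ] ℚ) →ₗ[ℚ] ℚ where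
  toFun A := A v
  map_add' _ _ := rfl
  map_smul' _ _ := rfl

@[simp] theorem x2_ev_apply {j : ℕ} (v : Fin j → U) (A : U [⋀^Fin j]→ₗ[ℚ] ℚ) :
    x2_ev v A = A v := rfl

/-- Averaging over the permutations which fix the first variable. -/
theorem x2_symmetrise {q : ℕ} (L : MultilinearMap ℚ (fun _ : Fin (q + 2) => U) ℚ)
    (hd : ∀ x, L (fun _ => x) = 0) :
    ∃ M : MultilinearMap ℚ (fun _ : Fin (q + 2) => U) ℚ, Adm M ∧ ∀ a b : U,
      M (Fin.cons a fun _ => b) = L (Fin.cons a fun _ => b) := by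
  classical
  let G : Finset (Equiv.Perm (Fin (q + 2))) := univ.filter fun σ => σ 0 = 0
  have hG : (G.card : ℚ) ≠ 0 := by
    rw [Nat.cast_ne_zero]
    refine Finset.card_ne_zero_of_mem (a := 1) ?_
    simp [G]
  let M : MultilinearMap ℚ (fun _ : Fin (q + 2) => U) ℚ :=
    (G.card : ℚ)⁻¹ • ∑ σ ∈ G, L.domDomCongr σ
  have hM : ∀ x, M x = (G.card : ℚ)⁻¹ • ∑ σ ∈ G, L (fun i => x (σ i)) := by
    intro x
    simp only [M, smul_apply, _root_.sum_apply, MultilinearMap.domDomCongr_apply]
  refine ⟨M, ⟨?_, ?_⟩, ?_⟩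
  · intro τ hτ x
    rw [hM, hM]
    congr 1
    refine Finset.sum_equiv (Equiv.mulLeft τ) ?_ ?_
    · intro σ
      simp only [G, Finset.mem_filter, Finset.mem_univ, true_and, Equiv.coe_mulLeft,
        Equiv.Perm.coe_mul, Function.comp]
      constructor
      · intro h
        rw [h, hτ]
      · intro h
        exact τ.injective (h.trans hτ.symm)
    · intro σ _
      rfl
  · intro x
    rw [hM]
    simp [hd]
  · intro a b
    rw [hM]
    have h1 : ∀ σ ∈ G, L (fun i => (Fin.cons a fun _ => b : Fin (q + 2) → U) (σ i)) =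
        L (Fin.cons a fun _ => b) := by
      intro σ hσ
      have hσ0 : σ 0 = 0 := by simpa [G] using hσ
      have hval : ∀ l : Fin (q + 2), (Fin.cons a fun _ => b : Fin (q + 2) → U) l =
          if l = 0 then a else b := by
        intro l
        refine Fin.cases ?_ (fun l => ?_) l
        · simp
        · simp
      congr 1
      ext i
      rw [hval, hval]
      have : σ i = 0 ↔ i = 0 := by
        constructor
        · intro h
          exact σ.injective (by rw [h, hσ0])
        · intro h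
          rw [h, hσ0]
      simp [this]
    rw [Finset.sum_congr rfl h1, Finset.sum_const, ← Nat.cast_smul_eq_nsmul ℚ, smul_smul,
      inv_mul_cancel₀ hG, one_smul]

/-- The form `L(x; y_1, …, y_{q+2}) = M(x; y_1, …, y_{q+1})(y_{q+2}, v)`. -/
def x2_plus {q j : ℕ} (M : MultilinearMap ℚ (fun _ : Fin (q + 2) => U)
    (U [⋀^Fin (j + 1)]→ₗ[ℚ] ℚ)) (v : Fin j → U) :
    MultilinearMap ℚ (fun _ : Fin (q + 3) => U) ℚ :=
  MultilinearMap.uncurryRight (M := fun _ : Fin (q + 3) => U)
    (((LinearMap.llcomp ℚ U (U [⋀^Fin j]→ₗ[ℚ] ℚ) ℚ (x2_ev v)) ∘ₗ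
      AlternatingMap.curryLeftLinearMap).compMultilinearMap M)

theorem x2_plus_apply {q j : ℕ} (M : MultilinearMap ℚ (fun _ : Fin (q + 2) => U)
    (U [⋀^Fin (j + 1)]→ₗ[ℚ] ℚ)) (v : Fin j → U) (z : Fin (q + 3) → U) :
    x2_plus M v z = M (fun i => z i.castSucc) (Fin.cons (z (Fin.last _)) v) := rfl

theorem x2_plus_cons {q j : ℕ} (M : MultilinearMap ℚ (fun _ : Fin (q + 2) => U)
    (U [⋀^Fin (j + 1)]→ₗ[ℚ] ℚ)) (v : Fin j → U) (x y : U) :
    x2_plus M v (Fin.cons x fun _ => y) = M (Fin.cons x fun _ => y) (Fin.cons y v) := by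
  rw [x2_plus_apply]
  congr 1
  congr 1
  ext i
  refine Fin.cases ?_ (fun i => ?_) i
  · simp
  · rw [Fin.castSucc_succ, Fin.cons_succ, Fin.cons_succ]

/-- An alternating form vanishing on tuples starting with `y` vanishes on tuples containing
`y`. -/
theorem x2_alt_mem {j : ℕ} (A : U [⋀^Fin (j + 1)]→ₗ[ℚ] ℚ) (y : U)
    (h : ∀ v : Fin j → U, A (Fin.cons y v) = 0) (v : Fin (j + 1) → U) (hv : ∃ i, v i = y) :
    A v = 0 := by
  obtain ⟨i, hi⟩ := hv
  by_cases h0 : i = 0
  · subst h0
    rw [← hi] at h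
    have := h (Fin.tail v)
    rwa [Fin.cons_self_tail] at this
  · have h1 := A.map_swap v (Ne.symm h0)
    have h2 : (v ∘ Equiv.swap 0 i) = Fin.cons y (Fin.tail (v ∘ Equiv.swap 0 i)) := by
      rw [← hi]
      conv_lhs => rw [← Fin.cons_self_tail (v ∘ Equiv.swap 0 i)]
      simp
    rw [h2, h] at h1
    linarith

omit [AddCommGroup U] [Module ℚ U] in
theorem x2_pair (x y : U) : (![x, y] : Fin 2 → U) = Fin.cons x fun _ => y := by
  ext i
  fin_cases i <;> rfl

/-- The first two variables of an alternating form. -/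
theorem x2_two {j : ℕ} (A : U [⋀^Fin (j + 2)]→ₗ[ℚ] ℚ) (v : Fin j → U) :
    ∃ M : MultilinearMap ℚ (fun _ : Fin 2 => U) ℚ, ∀ z,
      M z = A (Fin.cons (z 0) (Fin.cons (z 1) v)) := by
  let L : U →ₗ[ℚ] MultilinearMap ℚ (fun _ : Fin 1 => U) ℚ :=
    { toFun := fun x =>
        { toFun := fun z => A.curryLeft x (Fin.cons (z 0) v)
          map_update_add' := by
            intro inst z i a b
            have hi : i = 0 := Subsingleton.elim _ _
            subst hi
            simp only [Function.update_self]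
            exact MultilinearMap.cons_add (A.curryLeft x).toMultilinearMap v a b
          map_update_smul' := by
            intro inst z i c a
            have hi : i = 0 := Subsingleton.elim _ _
            subst hi
            simp only [Function.update_self]
            exact MultilinearMap.cons_smul (A.curryLeft x).toMultilinearMap v c a }
      map_add' := fun x y => by
        ext z
        change A.curryLeft (x + y) _ = A.curryLeft x _ + A.curryLeft y _
        rw [map_add]
        rfl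
      map_smul' := fun c x => by
        ext z
        change A.curryLeft (c • x) _ = c • A.curryLeft x _
        rw [map_smul]
        rfl }
  exact ⟨LinearMap.uncurryLeft L, fun z => rfl⟩

theorem x2_pair_add_left {W : Type} [AddCommGroup W] [Module ℚ W]
    (M : MultilinearMap ℚ (fun _ : Fin 2 => U) W) (x x' y : U) :
    M ![x + x', y] = M ![x, y] + M ![x', y] := by
  have h := M.map_update_add ![x, y] 0 x x'
  have e : ∀ z : U, Function.update (![x, y] : Fin 2 → U) 0 z = ![z, y] := by
    intro z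
    ext i
    fin_cases i <;> simp
  simpa only [e] using h

theorem x2_pair_add_right {W : Type} [AddCommGroup W] [Module ℚ W]
    (M : MultilinearMap ℚ (fun _ : Fin 2 => U) W) (x y y' : U) :
    M ![x, y + y'] = M ![x, y] + M ![x, y'] := by
  have h := M.map_update_add ![x, y] 1 y y'
  have e : ∀ z : U, Function.update (![x, y] : Fin 2 → U) 1 z = ![x, z] := by
    intro z
    ext i
    fin_cases i <;> simp
  simpa only [e] using h

theorem x2_pair_smul_left {W : Type} [AddCommGroup W] [Module ℚ W]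
    (M : MultilinearMap ℚ (fun _ : Fin 2 => U) W) (c : ℚ) (x y : U) :
    M ![c • x, y] = c • M ![x, y] := by
  have h := M.map_update_smul ![x, y] 0 c x
  have e : ∀ z : U, Function.update (![x, y] : Fin 2 → U) 0 z = ![z, y] := by
    intro z
    ext i
    fin_cases i <;> simp
  simpa only [e] using h

theorem x2_pair_smul_right {W : Type} [AddCommGroup W] [Module ℚ W]
    (M : MultilinearMap ℚ (fun _ : Fin 2 => U) W) (c : ℚ) (x y : U) :
    M ![x, c • y] = c • M ![x, y] := by
  have h := M.map_update_smul ![x, y] 1 c y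
  have e : ∀ z : U, Function.update (![x, y] : Fin 2 → U) 1 z = ![x, z] := by
    intro z
    ext i
    fin_cases i <;> simp
  simpa only [e] using h

/-- The alternating map of a form in two variables. -/
theorem x2_alt2 {j : ℕ} (M : MultilinearMap ℚ (fun _ : Fin 2 => U) (U [⋀^Fin j]→ₗ[ℚ] ℚ))
    (hd : ∀ x, M (fun _ => x) = 0)
    (hSC : ∀ x y (v : Fin j → U), (∃ i, v i = y) → M (Fin.cons x fun _ => y) v = 0) :
    ∃ A : U [⋀^Fin (j + 2)]→ₗ[ℚ] ℚ, ∀ x y v,
      A (Fin.cons x (Fin.cons y v)) = M (Fin.cons x fun _ => y) v := by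
  have hd' : ∀ x, M ![x, x] = 0 := fun x => by
    rw [x2_pair, ← hd x]
    congr 1
    ext i
    refine Fin.cases ?_ (fun i => ?_) i <;> simp
  have hanti : ∀ x y, M ![x, y] = - M ![y, x] := by
    intro x y
    have h := hd' (x + y)
    rw [x2_pair_add_left, x2_pair_add_right, x2_pair_add_right, hd', hd', zero_add,
      add_zero] at h
    exact eq_neg_of_add_eq_zero_left h
  have hz : ∀ (v : Fin (j + 2) → U) (i k : Fin (j + 2)), i < k → v i = v k →
      M ![v 0, v 1] (fun i => v i.succ.succ) = 0 := by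
    intro v i k hik hv
    revert hik hv
    refine Fin.cases ?_ (fun k => ?_) k
    · intro hik
      exact absurd hik (Fin.not_lt_zero i)
    · refine Fin.cases ?_ (fun k => ?_) k
      · intro hik hv
        have hi : i = 0 := by
          rw [Fin.lt_def] at hik
          ext
          simp at hik ⊢
          exact hik
        subst hi
        have hv' : v 0 = v 1 := hv
        rw [hv', hd']
        rfl
      · refine Fin.cases ?_ (fun i => ?_) i
        · intro _ hv
          rw [hanti, AlternatingMap.neg_apply, x2_pair, hSC _ _ _ ⟨k, hv.symm⟩, neg_zero]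
        · refine Fin.cases ?_ (fun i => ?_) i
          · intro _ hv
            rw [x2_pair]
            exact hSC _ _ _ ⟨k, hv.symm⟩
          · intro hik hv
            refine AlternatingMap.map_eq_zero_of_eq _ _ (i := i) (j := k) hv ?_
            intro h
            rw [h] at hik
            exact lt_irrefl _ hik
  refine ⟨{ toFun := fun w => M ![w 0, w 1] (fun i => w i.succ.succ)
            map_update_add' := ?_
            map_update_smul' := ?_
            map_eq_zero_of_eq' := ?_ }, ?_⟩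
  · intro inst w i x y
    have hinst : inst = instDecidableEqFin (j + 2) := Subsingleton.elim _ _
    subst hinst
    revert x y
    refine Fin.cases ?_ (fun i => ?_) i
    · intro x y
      have e : ∀ z : U, (fun i : Fin j => Function.update w 0 z i.succ.succ) =
          fun i => w i.succ.succ := fun z => by ext i; simp
      have e1 : ∀ z : U, Function.update w 0 z 1 = w 1 := fun z => by simp
      simp only [e, e1, Function.update_self, x2_pair_add_left, AlternatingMap.add_apply]
    · refine Fin.cases ?_ (fun i => ?_) i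
      · intro x y
        have e : ∀ z : U, (fun i : Fin j =>
            Function.update w (Fin.succ (0 : Fin (j + 1))) z i.succ.succ) =
            fun i => w i.succ.succ := fun z => by
          ext i
          rw [Function.update_of_ne]
          intro h
          exact Fin.succ_ne_zero _ (Fin.succ_injective _ h)
        have e1 : ∀ z : U, Function.update w (Fin.succ (0 : Fin (j + 1))) z 1 = z := fun z => by
          have : (1 : Fin (j + 2)) = Fin.succ (0 : Fin (j + 1)) := rfl
          rw [this, Function.update_self]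
        have e0 : ∀ z : U, Function.update w (Fin.succ (0 : Fin (j + 1))) z 0 = w 0 :=
          fun z => by rw [Function.update_of_ne]; exact (Fin.succ_ne_zero _).symm
        simp only [e, e1, e0, x2_pair_add_right, AlternatingMap.add_apply]
      · intro x y
        have e : ∀ z : U, (fun l : Fin j => Function.update w i.succ.succ z l.succ.succ) =
            Function.update (fun l : Fin j => w l.succ.succ) i z := fun z => by
          ext l
          by_cases hl : l = i
          · subst hl; simp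
          · rw [Function.update_of_ne hl, Function.update_of_ne]
            intro h
            exact hl (Fin.succ_injective _ (Fin.succ_injective _ h))
        have e1 : ∀ z : U, Function.update w i.succ.succ z 1 = w 1 := fun z => by
          rw [Function.update_of_ne]
          intro h
          exact Fin.succ_ne_zero i (Fin.succ_injective _ h.symm)
        have e0 : ∀ z : U, Function.update w i.succ.succ z 0 = w 0 := fun z => by
          rw [Function.update_of_ne]; exact (Fin.succ_ne_zero _).symm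
        simp only [e, e1, e0]
        exact AlternatingMap.map_update_add _ _ _ _ _
  · intro inst w i c x
    have hinst : inst = instDecidableEqFin (j + 2) := Subsingleton.elim _ _
    subst hinst
    revert x
    refine Fin.cases ?_ (fun i => ?_) i
    · intro x
      have e : ∀ z : U, (fun i : Fin j => Function.update w 0 z i.succ.succ) =
          fun i => w i.succ.succ := fun z => by ext i; simp
      have e1 : ∀ z : U, Function.update w 0 z 1 = w 1 := fun z => by simp
      simp only [e, e1, Function.update_self, x2_pair_smul_left, AlternatingMap.smul_apply]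
    · refine Fin.cases ?_ (fun i => ?_) i
      · intro x
        have e : ∀ z : U, (fun i : Fin j =>
            Function.update w (Fin.succ (0 : Fin (j + 1))) z i.succ.succ) =
            fun i => w i.succ.succ := fun z => by
          ext i
          rw [Function.update_of_ne]
          intro h
          exact Fin.succ_ne_zero _ (Fin.succ_injective _ h)
        have e1 : ∀ z : U, Function.update w (Fin.succ (0 : Fin (j + 1))) z 1 = z := fun z => by
          have : (1 : Fin (j + 2)) = Fin.succ (0 : Fin (j + 1)) := rfl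
          rw [this, Function.update_self]
        have e0 : ∀ z : U, Function.update w (Fin.succ (0 : Fin (j + 1))) z 0 = w 0 :=
          fun z => by rw [Function.update_of_ne]; exact (Fin.succ_ne_zero _).symm
        simp only [e, e1, e0, x2_pair_smul_right, AlternatingMap.smul_apply]
      · intro x
        have e : ∀ z : U, (fun l : Fin j => Function.update w i.succ.succ z l.succ.succ) =
            Function.update (fun l : Fin j => w l.succ.succ) i z := fun z => by
          ext l
          by_cases hl : l = i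
          · subst hl; simp
          · rw [Function.update_of_ne hl, Function.update_of_ne]
            intro h
            exact hl (Fin.succ_injective _ (Fin.succ_injective _ h))
        have e1 : ∀ z : U, Function.update w i.succ.succ z 1 = w 1 := fun z => by
          rw [Function.update_of_ne]
          intro h
          exact Fin.succ_ne_zero i (Fin.succ_injective _ h.symm)
        have e0 : ∀ z : U, Function.update w i.succ.succ z 0 = w 0 := fun z => by
          rw [Function.update_of_ne]; exact (Fin.succ_ne_zero _).symm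
        simp only [e, e1, e0]
        exact AlternatingMap.map_update_smul _ _ _ _ _
  · intro v i k hv hik
    rcases lt_or_gt_of_ne hik with h | h
    · exact hz v i k h hv
    · exact hz v k i h hv.symm
  · intro x y v
    change M ![x, y] v = _
    rw [x2_pair]

end X2lin

section X2field

variable {K : Type} [Field K]

theorem x2_wedge (j : ℕ) (x : V K) (v : Fin j → V K) :
    wedge K j x (exteriorPower.ιMulti ℚ j v) = exteriorPower.ιMulti ℚ (j + 1) (Fin.cons x v) := by
  unfold wedge
  rw [LinearMap.comp_apply, LinearEquiv.coe_coe, exteriorPower.alternatingMapLinearEquiv_apply_ιMulti]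
  rfl

theorem x2_ext {k j : ℕ} {N : Type} [AddCommGroup N] [Module ℚ N]
    (f g : B k K ⊗[ℚ] ⋀[ℚ]^j (V K) →ₗ[ℚ] N)
    (h : ∀ x v, f (sym k x ⊗ₜ exteriorPower.ιMulti ℚ j v) =
      g (sym k x ⊗ₜ exteriorPower.ιMulti ℚ j v)) : f = g := by
  refine TensorProduct.ext ?_
  refine Submodule.linearMap_qext _ ?_
  refine Finsupp.lhom_ext' fun x => LinearMap.ext_ring ?_
  refine exteriorPower.linearMap_ext ?_
  ext v
  exact h x v

/-- The differential between tensor products. -/
def x2_D3 (K : Type) [Field K] (q j : ℕ) :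
    B (q + 3) K ⊗[ℚ] ⋀[ℚ]^j (V K) →ₗ[ℚ] B (q + 2) K ⊗[ℚ] ⋀[ℚ]^(j + 1) (V K) :=
  d K (q + 2) j

/-- The last differential. -/
def x2_D2 (K : Type) [Field K] (j : ℕ) :
    B 2 K ⊗[ℚ] ⋀[ℚ]^j (V K) →ₗ[ℚ] ⋀[ℚ]^(j + 2) (V K) :=
  d K 1 j

theorem x2_D3_eq (q j : ℕ) (a : B (q + 3) K) (b : ⋀[ℚ]^j (V K)) :
    x2_D3 K q j (a ⊗ₜ b) =
      descend (N := ⋀[ℚ]^j (V K) →ₗ[ℚ] B (q + 2) K ⊗[ℚ] ⋀[ℚ]^(j + 1) (V K))
        (R (q + 3) K) (pre3 K q j) a b := rfl

theorem x2_D2_eq (j : ℕ) (a : B 2 K) (b : ⋀[ℚ]^j (V K)) :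
    x2_D2 K j (a ⊗ₜ b) =
      descend (N := ⋀[ℚ]^j (V K) →ₗ[ℚ] ⋀[ℚ]^(j + 2) (V K)) (R 2 K) (pre2 K j) a b := rfl

theorem x2_D3_mk (q j : ℕ) (a : ZP K) (b : ⋀[ℚ]^j (V K))
    (h : R (q + 3) K ≤ LinearMap.ker (pre3 K q j)) :
    x2_D3 K q j ((R (q + 3) K).mkQ a ⊗ₜ b) = pre3 K q j a b := by
  rw [x2_D3_eq]
  unfold descend
  split_ifs with h'
  · rfl
  · exact (h' h).elim

theorem x2_D2_mk (j : ℕ) (a : ZP K) (b : ⋀[ℚ]^j (V K))
    (h : R 2 K ≤ LinearMap.ker (pre2 K j)) :
    x2_D2 K j ((R 2 K).mkQ a ⊗ₜ b) = pre2 K j a b := by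
  rw [x2_D2_eq]
  unfold descend
  split_ifs with h'
  · rfl
  · exact (h' h).elim

theorem x2_pre3 (q j : ℕ) (x : P1 K) (v : Fin j → V K) :
    pre3 K q j (Finsupp.single x 1) (exteriorPower.ιMulti ℚ j v) =
      sym (q + 2) x ⊗ₜ exteriorPower.ιMulti ℚ (j + 1) (Fin.cons (cl x) v) := by
  unfold pre3
  rw [Finsupp.linearCombination_single, one_smul, LinearMap.comp_apply, x2_wedge]
  rfl

theorem x2_pre2 (j : ℕ) (x : P1 K) (v : Fin j → V K) :
    pre2 K j (Finsupp.single x 1) (exteriorPower.ιMulti ℚ j v) =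
      exteriorPower.ιMulti ℚ (j + 2) (Fin.cons (cl1 x) (Fin.cons (cl x) v)) := by
  unfold pre2
  rw [Finsupp.linearCombination_single, one_smul, LinearMap.comp_apply, x2_wedge, x2_wedge]

theorem x2_D3_gen (q j : ℕ) (hR : ∀ q, R (q + 2) K = NN q K) (x : P1 K) (v : Fin j → V K) :
    x2_D3 K q j (sym (q + 3) x ⊗ₜ exteriorPower.ιMulti ℚ j v) =
      sym (q + 2) x ⊗ₜ exteriorPower.ιMulti ℚ (j + 1) (Fin.cons (cl x) v) := by
  have h := wd3 K q (hR q) (hR (q + 1)) j
  exact (x2_D3_mk q j _ _ h).trans (x2_pre3 q j x v)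

theorem x2_D2_gen (j : ℕ) (hR : R 2 K = NN 0 K) (x : P1 K) (v : Fin j → V K) :
    x2_D2 K j (sym 2 x ⊗ₜ exteriorPower.ιMulti ℚ j v) =
      exteriorPower.ιMulti ℚ (j + 2) (Fin.cons (cl1 x) (Fin.cons (cl x) v)) := by
  have h := wd2 K hR j
  exact (x2_D2_mk j _ _ h).trans (x2_pre2 j x v)

theorem x2_D3_D3 (q j : ℕ) (hR : ∀ q, R (q + 2) K = NN q K) :
    x2_D3 K q (j + 1) ∘ₗ x2_D3 K (q + 1) j = 0 := by
  refine x2_ext _ _ fun x v => ?_
  rw [LinearMap.comp_apply, x2_D3_gen (q + 1) j hR, LinearMap.zero_apply]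
  change x2_D3 K q (j + 1) (sym (q + 3) x ⊗ₜ
    exteriorPower.ιMulti ℚ (j + 1) (Fin.cons (cl x) v)) = _
  rw [x2_D3_gen q (j + 1) hR]
  rw [AlternatingMap.map_eq_zero_of_eq _ _ (i := 0) (j := 1) (by rfl) (by simp),
    TensorProduct.tmul_zero]

theorem x2_D2_D3 (j : ℕ) (hR : ∀ q, R (q + 2) K = NN q K) :
    x2_D2 K (j + 1) ∘ₗ x2_D3 K 0 j = 0 := by
  refine x2_ext _ _ fun x v => ?_
  rw [LinearMap.comp_apply, x2_D3_gen 0 j hR, LinearMap.zero_apply]
  change x2_D2 K (j + 1) (sym 2 x ⊗ₜ
    exteriorPower.ιMulti ℚ (j + 1) (Fin.cons (cl x) v)) = _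
  rw [x2_D2_gen (j + 1) (hR 0)]
  exact AlternatingMap.map_eq_zero_of_eq _ _ (i := Fin.succ 0) (j := Fin.succ (Fin.succ 0))
    (by rfl) (fun h => Fin.succ_ne_zero _ (Fin.succ_injective _ h).symm)

/-- A functional which comes from a form with the extra vanishing property factors. -/
theorem x2_factor3 (q j : ℕ) (hR : ∀ q, R (q + 2) K = NN q K)
    (l : B (q + 3) K ⊗[ℚ] ⋀[ℚ]^j (V K) →ₗ[ℚ] ℚ)
    (M : MultilinearMap ℚ (fun _ : Fin (q + 3) => V K) (V K [⋀^Fin j]→ₗ[ℚ] ℚ))
    (hM : Adm (q := q + 1) M)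
    (hl : ∀ (x : P1 K) (v : Fin j → V K), l (sym (q + 3) x ⊗ₜ exteriorPower.ιMulti ℚ j v) =
        M (Fin.cons (cl1 x) fun _ => cl x) v)
    (hSC : ∀ x y (v : Fin j → V K), (∃ i, v i = y) → M (Fin.cons x fun _ => y) v = 0) :
    ∃ l' : B (q + 2) K ⊗[ℚ] ⋀[ℚ]^(j + 1) (V K) →ₗ[ℚ] ℚ, l = l' ∘ₗ x2_D3 K q j := by
  obtain ⟨M', hM', hMM⟩ := contraction q j M hM hSC
  obtain ⟨l', hl'⟩ := functional_of_form q (j + 1) (hR q) M' hM'
  refine ⟨l', x2_ext _ _ fun x v => ?_⟩
  rw [LinearMap.comp_apply, x2_D3_gen q j hR, hl', hMM, hl]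

theorem x2_factor2 (j : ℕ) (hR : R 2 K = NN 0 K)
    (l : B 2 K ⊗[ℚ] ⋀[ℚ]^j (V K) →ₗ[ℚ] ℚ)
    (M : MultilinearMap ℚ (fun _ : Fin 2 => V K) (V K [⋀^Fin j]→ₗ[ℚ] ℚ))
    (hM : Adm (q := 0) M)
    (hl : ∀ (x : P1 K) (v : Fin j → V K), l (sym 2 x ⊗ₜ exteriorPower.ιMulti ℚ j v) =
        M (Fin.cons (cl1 x) fun _ => cl x) v)
    (hSC : ∀ x y (v : Fin j → V K), (∃ i, v i = y) → M (Fin.cons x fun _ => y) v = 0) :
    ∃ l' : ⋀[ℚ]^(j + 2) (V K) →ₗ[ℚ] ℚ, l = l' ∘ₗ x2_D2 K j := by
  obtain ⟨A, hA⟩ := x2_alt2 M hM.diag hSC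
  refine ⟨exteriorPower.alternatingMapLinearEquiv A, x2_ext _ _ fun x v => ?_⟩
  rw [LinearMap.comp_apply, x2_D2_gen j hR, exteriorPower.alternatingMapLinearEquiv_apply_ιMulti,
    hA, hl]

end X2field

section X2main

variable {F : Type} [Field F]

/-- The extra vanishing property, from the spanning theorem. -/
theorem x2_hSC (p : ℕ) [Fact p.Prime] [CharP F p] [IsAlgClosed F]
    (hF : ∀ x : F, ∃ m, 0 < m ∧ x ^ p ^ m = x) (q j : ℕ)
    (M : MultilinearMap ℚ (fun _ : Fin (q + 2) => V (RatFunc F))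
      (V (RatFunc F) [⋀^Fin (j + 1)]→ₗ[ℚ] ℚ)) (hM : Adm M)
    (h : ∀ f : RatFunc F, ∀ v : Fin j → V (RatFunc F),
      M (Fin.cons (lg (1 - f)) fun _ => lg f) (Fin.cons (lg f) v) = 0)
    (x y : V (RatFunc F)) (v : Fin (j + 1) → V (RatFunc F)) (hv : ∃ i, v i = y) :
    M (Fin.cons x fun _ => y) v = 0 := by
  refine x2_alt_mem _ y (fun v' => ?_) v hv
  obtain ⟨M', hM', hMM⟩ := x2_symmetrise (q := q + 1) (x2_plus M v') (fun x => by
    rw [x2_plus_apply, hM.diag x]; rfl)
  have h0 : M' = 0 := spanning p hF (q + 1) M' hM' (fun f _ _ => by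
    rw [hMM, x2_plus_cons, h])
  rw [← x2_plus_cons, ← hMM, h0]
  rfl

theorem x2_exact3 (p : ℕ) [Fact p.Prime] [CharP F p] [IsAlgClosed F]
    (hF : ∀ x : F, ∃ m, 0 < m ∧ x ^ p ^ m = x)
    (hR : ∀ q, R (q + 2) (RatFunc F) = NN q (RatFunc F)) (q j : ℕ) :
    Function.Exact (x2_D3 (RatFunc F) (q + 1) j) (x2_D3 (RatFunc F) q (j + 1)) := by
  refine exact_of_dual _ _ (x2_D3_D3 q j hR) fun l hl => ?_
  obtain ⟨M, hM, hlM⟩ := form_of_functional (q + 1) (j + 1) (hR (q + 1)) l
  refine x2_factor3 q (j + 1) hR l M hM hlM ?_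
  refine x2_hSC p hF (q + 1) j M hM fun f v => ?_
  have h1 := LinearMap.congr_fun hl (sym (q + 4) (some f) ⊗ₜ exteriorPower.ιMulti ℚ j v)
  rw [LinearMap.comp_apply, LinearMap.zero_apply] at h1
  have h2 := x2_D3_gen (q + 1) j hR (some f) v
  change l (x2_D3 (RatFunc F) (q + 1) j (sym (q + 1 + 3) (some f) ⊗ₜ _)) = 0 at h1
  rw [h2] at h1
  rw [← h1]
  exact (hlM (some f) (Fin.cons (lg f) v)).symm

theorem x2_exact2 (p : ℕ) [Fact p.Prime] [CharP F p] [IsAlgClosed F]
    (hF : ∀ x : F, ∃ m, 0 < m ∧ x ^ p ^ m = x)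
    (hR : ∀ q, R (q + 2) (RatFunc F) = NN q (RatFunc F)) (j : ℕ) :
    Function.Exact (x2_D3 (RatFunc F) 0 j) (x2_D2 (RatFunc F) (j + 1)) := by
  refine exact_of_dual _ _ (x2_D2_D3 j hR) fun l hl => ?_
  obtain ⟨M, hM, hlM⟩ := form_of_functional 0 (j + 1) (hR 0) l
  refine x2_factor2 (j + 1) (hR 0) l M hM hlM ?_
  refine x2_hSC p hF 0 j M hM fun f v => ?_
  have h1 := LinearMap.congr_fun hl (sym 3 (some f) ⊗ₜ exteriorPower.ιMulti ℚ j v)
  rw [LinearMap.comp_apply, LinearMap.zero_apply] at h1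
  have h2 := x2_D3_gen 0 j hR (some f) v
  change l (x2_D3 (RatFunc F) 0 j (sym (0 + 3) (some f) ⊗ₜ _)) = 0 at h1
  rw [h2] at h1
  rw [← h1]
  exact (hlM (some f) (Fin.cons (lg f) v)).symm

theorem x2_surj (p : ℕ) [Fact p.Prime] [CharP F p] [IsAlgClosed F]
    (hF : ∀ x : F, ∃ m, 0 < m ∧ x ^ p ^ m = x)
    (hR : ∀ q, R (q + 2) (RatFunc F) = NN q (RatFunc F)) (j : ℕ) :
    Function.Surjective (x2_D2 (RatFunc F) j) := by
  refine surj_of_dual _ fun l hl => ?_
  refine exteriorPower.linearMap_ext ?_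
  ext w
  rw [LinearMap.compAlternatingMap_apply, LinearMap.compAlternatingMap_apply,
    LinearMap.zero_apply]
  let A : V (RatFunc F) [⋀^Fin (j + 2)]→ₗ[ℚ] ℚ := l.compAlternatingMap (exteriorPower.ιMulti ℚ _)
  let v : Fin j → V (RatFunc F) := fun i => w i.succ.succ
  have hw : w = Fin.cons (w 0) (Fin.cons (w 1) v) := by
    ext i
    refine Fin.cases ?_ (fun i => ?_) i
    · rfl
    · refine Fin.cases ?_ (fun i => ?_) i
      · rfl
      · rfl
  obtain ⟨M, hM⟩ := x2_two A v
  have hAdm : Adm (q := 0) M := by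
    refine ⟨?_, ?_⟩
    · intro σ hσ x
      have : σ = 1 := by
        ext i
        fin_cases i
        · simp [hσ]
        · have h1 : σ 1 ≠ 0 := fun h => by
            have := σ.injective (h.trans hσ.symm)
            exact absurd this (by decide)
          have h2 : σ 1 = 1 := by
            have := Fin.exists_succ_eq.2 h1
            obtain ⟨l, hl⟩ := this
            rw [← hl]
            have : l = 0 := Subsingleton.elim _ _
            rw [this]; rfl
          simp [h2]
      rw [this]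
      rfl
    · intro x
      rw [hM]
      exact A.map_eq_zero_of_eq _ (i := 0) (j := 1) rfl (by simp)
  have h0 : M = 0 := spanning p hF 0 M hAdm (fun f _ _ => by
    have h1 := LinearMap.congr_fun hl (sym 2 (some f) ⊗ₜ exteriorPower.ιMulti ℚ j v)
    rw [LinearMap.comp_apply, LinearMap.zero_apply, x2_D2_gen j (hR 0)] at h1
    rw [hM]
    exact h1)
  have h1 : M ![w 0, w 1] = A w := by
    rw [hM]
    conv_rhs => rw [hw]
    rfl
  rw [h0] at h1
  exact h1.symm

theorem x2_inj3 (hR : ∀ q, R (q + 2) (RatFunc F) = NN q (RatFunc F)) (q : ℕ) :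
    Function.Injective (x2_D3 (RatFunc F) q 0) := by
  refine inj_of_dual _ fun l => ?_
  obtain ⟨M, hM, hlM⟩ := form_of_functional (q + 1) 0 (hR (q + 1)) l
  refine x2_factor3 q 0 hR l M hM hlM ?_
  rintro x y v ⟨i, _⟩
  exact i.elim0

theorem x2_inj2 (hR : ∀ q, R (q + 2) (RatFunc F) = NN q (RatFunc F)) :
    Function.Injective (x2_D2 (RatFunc F) 0) := by
  refine inj_of_dual _ fun l => ?_
  obtain ⟨M, hM, hlM⟩ := form_of_functional 0 0 (hR 0) l
  refine x2_factor2 0 (hR 0) l M hM hlM ?_
  rintro x y v ⟨i, _⟩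
  exact i.elim0

theorem exact_T (p : ℕ) [Fact p.Prime] [CharP F p] [IsAlgClosed F]
    (hF : ∀ x : F, ∃ m, 0 < m ∧ x ^ p ^ m = x)
    (hR : ∀ q, R (q + 2) (RatFunc F) = NN q (RatFunc F)) :
    (∀ k, 1 ≤ k → Function.Injective (d (RatFunc F) k 0)) ∧
    ∀ k j, Function.Exact (d (RatFunc F) (k + 1) j) (d (RatFunc F) k (j + 1)) := by
  constructor
  · intro k hk
    obtain _ | _ | q := k
    · omega
    · exact x2_inj2 hR
    · exact x2_inj3 hR q
  · intro k j
    obtain _ | _ | q := k
    · intro y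
      constructor
      · intro _
        exact x2_surj p hF hR j y
      · intro _
        rfl
    · exact x2_exact2 p hF hR j
    · exact x2_exact3 p hF hR q j

end X2main

end

end PL
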